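import Pool.Agent.H56.Anosov.Main

/-!
# Negative answer to Q1 for `r = 1` and `M` a two-dimensional torus

There is a compact connected smooth surface `M` without boundary (the two-dimensional torus) such
that the set of those `C^1` Anosov diffeomorphisms of `M` whose centralizer in `Diff^1(M)` is
trivial is not open in the space `A^1(M)` of all `C^1` Anosov diffeomorphisms with the `C^1`
topology.
-/

open scoped Manifold ContDiff Topology
open Pool.Agent.H56.AnosovDefs

namespace Pool.Agent.Results.MP_d03271_an.C1OpennessFails

theorem result : ∃ (M : Type) (_ : TopologicalSpace M) (_ : ChartedSpace (ℝ × ℝ) M)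
    (_ : IsManifold 𝓘(ℝ, ℝ × ℝ) ∞ M), CompactSpace M ∧ T2Space M ∧ ConnectedSpace M ∧
      ¬ IsOpen {f : AnosovDiff (ℝ × ℝ) M | TrivialCentralizer f.1} :=
  Pool.Agent.H56.Anosov.main

end Pool.Agent.Results.MP_d03271_an.C1OpennessFails
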